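import Pool.Agent.E8helper49.DD.Stm

/-! Project DD: good configurations present dodecahedra (`S_PRES`). -/

set_option autoImplicit false

open Set

namespace Pool.Agent.E8helper41.DD

open Pool.Agent.E8helper49.DD

/-- the explicit determinant -/
lemma det4_eq (a b c d : Fin 4 → ℝ) : det4 a b c d =
    a 0 * (b 1 * (c 2 * d 3 - c 3 * d 2) - b 2 * (c 1 * d 3 - c 3 * d 1) +
      b 3 * (c 1 * d 2 - c 2 * d 1)) -
    a 1 * (b 0 * (c 2 * d 3 - c 3 * d 2) - b 2 * (c 0 * d 3 - c 3 * d 0) +
      b 3 * (c 0 * d 2 - c 2 * d 0)) +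
    a 2 * (b 0 * (c 1 * d 3 - c 3 * d 1) - b 1 * (c 0 * d 3 - c 3 * d 0) +
      b 3 * (c 0 * d 1 - c 1 * d 0)) -
    a 3 * (b 0 * (c 1 * d 2 - c 2 * d 1) - b 1 * (c 0 * d 2 - c 2 * d 0) +
      b 2 * (c 0 * d 1 - c 1 * d 0)) := by
  unfold det4
  rw [Matrix.det_succ_row_zero]
  simp only [Fin.sum_univ_four, Matrix.det_fin_three, Matrix.submatrix_apply, Matrix.of_apply]
  simp [Fin.succAbove, Fin.lt_def]
  ring

lemma det4_mul (a b c d : Fin 4 → ℝ) (A : Matrix (Fin 4) (Fin 4) ℝ) :
    det4 (Matrix.vecMul a A) (Matrix.vecMul b A) (Matrix.vecMul c A) (Matrix.vecMul d A) =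
      det4 a b c d * A.det := by
  unfold det4
  rw [← Matrix.det_mul]
  congr 1
  ext i j
  fin_cases i <;> rfl

/-- the coefficients of the last row -/
noncomputable def cof (a b c : Fin 4 → ℝ) : Fin 4 → ℝ := fun m => det4 a b c (Pi.single m 1)

lemma det4_cof (a b c y : Fin 4 → ℝ) : det4 a b c y = y ⬝ᵥ cof a b c := by
  simp only [cof, dotProduct, Fin.sum_univ_four, det4_eq]
  simp [Pi.single_apply]
  ring

lemma dot_hat (u : Fin 4 → ℝ) (x : Fin 3 → ℝ) :
    u ⬝ᵥ hat x = u 0 * x 0 + u 1 * x 1 + u 2 * x 2 + u 3 := by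
  simp [hat, dotProduct, Fin.sum_univ_four]

/-- the neighbouring vertices -/
lemma tab (T : Fin 20) : ∀ r : Fin 3, ∃ T', (∃ s, face T' s = face T (r + 1)) ∧
    (∃ s, face T' s = face T (r + 2)) ∧ ∀ s, face T' s ≠ face T r := by
  revert T
  decide +kernel

theorem t_PRES : S_PRES := by
  intro h e A hG hA he
  set k : Fin 12 → Fin 4 → ℝ := fun i => Matrix.vecMul (h i) A with hk
  -- the sign
  obtain ⟨sg, hsg⟩ : ∃ sg : ℝ, 0 < sg * A.det := by
    rcases lt_or_gt_of_ne hA with h1 | h1
    · exact ⟨-1, by linarith⟩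
    · exact ⟨1, by linarith⟩
  let V : Fin 20 → Fin 4 → ℝ := fun T m =>
    sg * cof (k (face T 0)) (k (face T 1)) (k (face T 2)) m
  have hV : ∀ T y, y ⬝ᵥ V T = sg * det4 (k (face T 0)) (k (face T 1)) (k (face T 2)) y := by
    intro T y
    rw [det4_cof]
    simp only [V, dotProduct, Finset.mul_sum]
    exact Finset.sum_congr rfl fun m _ => by ring
  have hVk : ∀ T l, k l ⬝ᵥ V T = sg * A.det *
      det4 (h (face T 0)) (h (face T 1)) (h (face T 2)) (h l) := by
    intro T l
    rw [hV]
    simp only [hk]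
    rw [det4_mul]
    ring
  have hV3 : ∀ T, 0 < V T 3 := by
    intro T
    have h1 : e4 ⬝ᵥ V T = V T 3 := by
      simp [e4, dotProduct, Fin.sum_univ_four]
    rw [← h1, hV, ← he]
    simp only [hk]
    rw [det4_mul]
    have := mul_pos hsg (hG.2 T)
    linarith
  have hpos : ∀ T l, (∀ r, face T r ≠ l) → 0 < k l ⬝ᵥ V T := fun T l hl => by
    rw [hVk]
    exact mul_pos hsg (hG.1 T l hl)
  have hzero : ∀ T r, k (face T r) ⬝ᵥ V T = 0 := by
    intro T r
    rw [hVk]
    have : det4 (h (face T 0)) (h (face T 1)) (h (face T 2)) (h (face T r)) = 0 := by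
      rw [det4_eq]
      have hr : ∀ r : Fin 3, r = 0 ∨ r = 1 ∨ r = 2 := by decide
      rcases hr r with rfl | rfl | rfl <;> ring
    rw [this, mul_zero]
  -- the vertices
  let v : Fin 20 → Fin 3 → ℝ := fun T j => V T j.castSucc / V T 3
  have hdot : ∀ T (y : Fin 4 → ℝ), y ⬝ᵥ hat (v T) = (y ⬝ᵥ V T) / V T 3 := by
    intro T y
    rw [dot_hat]
    have h3 := (hV3 T).ne'
    simp only [v, dotProduct, Fin.sum_univ_four]
    change y 0 * (V T 0 / V T 3) + y 1 * (V T 1 / V T 3) + y 2 * (V T 2 / V T 3) + y 3 = _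
    field_simp
  have hkp : ∀ T l, (∀ r, face T r ≠ l) → 0 < k l ⬝ᵥ hat (v T) := fun T l hl => by
    rw [hdot]
    exact div_pos (hpos T l hl) (hV3 T)
  have hk0 : ∀ T r, k (face T r) ⬝ᵥ hat (v T) = 0 := fun T r => by
    rw [hdot, hzero, zero_div]
  have hkn : ∀ T l, 0 ≤ k l ⬝ᵥ hat (v T) := fun T l => by
    by_cases hl : ∃ r, face T r = l
    · obtain ⟨r, rfl⟩ := hl
      rw [hk0]
    · push Not at hl
      exact (hkp T l hl).le
  have hnb : ∀ (i : Fin 12) (x : Fin 3 → ℝ), k i ⬝ᵥ hat x =
      k i 3 - (fun j : Fin 3 => - k i j.castSucc) ⬝ᵥ x := by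
    intro i x
    rw [dot_hat]
    simp only [dotProduct, Fin.sum_univ_three]
    change _ = k i 3 - (-k i 0 * x 0 + -k i 1 * x 1 + -k i 2 * x 2)
    ring
  refine ⟨v, ?_, ?_, ?_⟩
  · apply subset_antisymm
    · -- separation
      intro x hx
      by_contra hxc
      obtain ⟨f, u, hf1, hf2⟩ := geometric_hahn_banach_closed_point (convex_convexHull ℝ (range v))
        ((Set.finite_range v).isClosed_convexHull ℝ) hxc
      obtain ⟨T, hT⟩ := Finite.exists_max fun T => f (v T)
      have hfx : f (v T) < f x := (hf1 _ (subset_convexHull ℝ _ ⟨T, rfl⟩)).trans hf2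
      let γ : Fin 4 → ℝ := ![f (Pi.single 0 1), f (Pi.single 1 1), f (Pi.single 2 1), -f (v T)]
      have hfs : ∀ y : Fin 3 → ℝ, f y =
          f (Pi.single 0 1) * y 0 + f (Pi.single 1 1) * y 1 + f (Pi.single 2 1) * y 2 := by
        intro y
        have h1 : y = y 0 • (Pi.single 0 1 : Fin 3 → ℝ) + y 1 • (Pi.single 1 1 : Fin 3 → ℝ) +
            y 2 • (Pi.single 2 1 : Fin 3 → ℝ) := by
          funext i
          fin_cases i <;> simp
        conv_lhs => rw [h1]
        simp only [map_add, map_smul, smul_eq_mul]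
        ring
      have hγ : ∀ y : Fin 3 → ℝ, γ ⬝ᵥ hat y = f y - f (v T) := by
        intro y
        rw [dot_hat, hfs y]
        simp only [γ]
        simp
        ring
      -- Cramer
      let M : Matrix (Fin 4) (Fin 4) ℝ :=
        Matrix.of ![k (face T 0), k (face T 1), k (face T 2), e4]
      have hM : IsUnit M.det := by
        rw [isUnit_iff_ne_zero]
        intro h1
        have h2 := hV T e4
        have h3 : e4 ⬝ᵥ V T = V T 3 := by
          simp [e4, dotProduct, Fin.sum_univ_four]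
        rw [h3] at h2
        have h4 : det4 (k (face T 0)) (k (face T 1)) (k (face T 2)) e4 = M.det := rfl
        rw [h4, h1, mul_zero] at h2
        exact (hV3 T).ne' h2
      let μ : Fin 4 → ℝ := Matrix.vecMul γ M⁻¹
      have hμ : Matrix.vecMul μ M = γ := by
        simp only [μ]
        rw [Matrix.vecMul_vecMul, Matrix.nonsing_inv_mul _ hM, Matrix.vecMul_one]
      have hμ' : ∀ y : Fin 4 → ℝ, γ ⬝ᵥ y = μ 0 * (k (face T 0) ⬝ᵥ y) + μ 1 * (k (face T 1) ⬝ᵥ y) +
          μ 2 * (k (face T 2) ⬝ᵥ y) + μ 3 * (e4 ⬝ᵥ y) := by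
        intro y
        rw [← hμ]
        simp only [Matrix.vecMul, dotProduct, Fin.sum_univ_four, M, Matrix.of_apply]
        simp
        ring
      have he4 : ∀ y : Fin 3 → ℝ, e4 ⬝ᵥ hat y = 1 := by
        intro y
        simp [e4, hat, dotProduct, Fin.sum_univ_four]
      have hμ3 : μ 3 = 0 := by
        have h1 := hμ' (hat (v T))
        rw [hγ, hk0, hk0, hk0, he4, sub_self] at h1
        linarith
      have hfin : ∀ y : Fin 3 → ℝ, f y - f (v T) = μ 0 * (k (face T 0) ⬝ᵥ hat y) +
          μ 1 * (k (face T 1) ⬝ᵥ hat y) + μ 2 * (k (face T 2) ⬝ᵥ hat y) := by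
        intro y
        rw [← hγ, hμ', hμ3]
        ring
      have key0 : μ 0 ≤ 0 := by
        obtain ⟨T', ⟨s1, h1⟩, ⟨s2, h2⟩, h3⟩ := tab T 0
        have h4 := hfin (v T')
        have e1 : k (face T 1) ⬝ᵥ hat (v T') = 0 := by
          have : face T 1 = face T' s1 := h1.symm
          rw [this]; exact hk0 T' s1
        have e2 : k (face T 2) ⬝ᵥ hat (v T') = 0 := by
          have : face T 2 = face T' s2 := h2.symm
          rw [this]; exact hk0 T' s2
        rw [e1, e2] at h4
        have h5 := hkp T' _ h3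
        have h6 := hT T'
        by_contra hc
        push Not at hc
        have := mul_pos hc h5
        linarith
      have key1 : μ 1 ≤ 0 := by
        obtain ⟨T', ⟨s1, h1⟩, ⟨s2, h2⟩, h3⟩ := tab T 1
        have h4 := hfin (v T')
        have e1 : k (face T 2) ⬝ᵥ hat (v T') = 0 := by
          have : face T 2 = face T' s1 := h1.symm
          rw [this]; exact hk0 T' s1
        have e2 : k (face T 0) ⬝ᵥ hat (v T') = 0 := by
          have : face T 0 = face T' s2 := h2.symm
          rw [this]; exact hk0 T' s2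
        rw [e1, e2] at h4
        have h5 := hkp T' _ h3
        have h6 := hT T'
        by_contra hc
        push Not at hc
        have := mul_pos hc h5
        linarith
      have key2 : μ 2 ≤ 0 := by
        obtain ⟨T', ⟨s1, h1⟩, ⟨s2, h2⟩, h3⟩ := tab T 2
        have h4 := hfin (v T')
        have e1 : k (face T 0) ⬝ᵥ hat (v T') = 0 := by
          have : face T 0 = face T' s1 := h1.symm
          rw [this]; exact hk0 T' s1
        have e2 : k (face T 1) ⬝ᵥ hat (v T') = 0 := by
          have : face T 1 = face T' s2 := h2.symm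
          rw [this]; exact hk0 T' s2
        rw [e1, e2] at h4
        have h5 := hkp T' _ h3
        have h6 := hT T'
        by_contra hc
        push Not at hc
        have := mul_pos hc h5
        linarith
      have h1 := hfin x
      have h2 := hx (face T 0)
      have h3 := hx (face T 1)
      have h4 := hx (face T 2)
      have h5 := mul_nonneg_of_nonpos_of_nonpos key0 (neg_nonpos.2 h2)
      have h6 := mul_nonneg_of_nonpos_of_nonpos key1 (neg_nonpos.2 h3)
      have h7 := mul_nonneg_of_nonpos_of_nonpos key2 (neg_nonpos.2 h4)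
      linarith
    · apply convexHull_min
      · rintro _ ⟨T, rfl⟩ i
        exact hkn T i
      · intro x hx y hy a b ha hb hab i
        have h1 := hx i
        have h2 := hy i
        rw [dot_hat] at h1 h2 ⊢
        simp only [Pi.add_apply, Pi.smul_apply, smul_eq_mul]
        have h3 := mul_nonneg ha h1
        have h4 := mul_nonneg hb h2
        have h5 : k i 3 = (a + b) * k i 3 := by
          rw [hab, one_mul]
        rw [h5]
        have h6 : 0 ≤ a * (k i 0 * x 0 + k i 1 * x 1 + k i 2 * x 2 + k i 3) := h3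
        have h7 : 0 ≤ b * (k i 0 * y 0 + k i 1 * y 1 + k i 2 * y 2 + k i 3) := h4
        linarith
  · ext x
    change (∀ i, 0 ≤ k i ⬝ᵥ hat x) ↔ ∀ i, (fun j : Fin 3 => - k i j.castSucc) ⬝ᵥ x ≤ k i 3
    refine forall_congr' fun i => ?_
    rw [hnb]
    exact sub_nonneg
  · intro T i
    change (fun j : Fin 3 => - k i j.castSucc) ⬝ᵥ v T = k i 3 ↔ _
    have h1 := hnb i (v T)
    constructor
    · intro h2
      by_contra hc
      push Not at hc
      have h3 := hkp T i hc
      rw [h1, h2, sub_self] at h3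
      exact lt_irrefl _ h3
    · rintro ⟨r, rfl⟩
      rw [hk0] at h1
      linarith

end Pool.Agent.E8helper41.DD
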